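import Pool.Agent.MP_77f003_co.H51.HBasic

/-!
Far rays are rerouted onto a large family of far rays in the same end.
-/

namespace Pool.Agent.MP_77f003_co.H49

open SimpleGraph Filter Set

namespace UP

/-- A stable matching in which the unmatched rays avoid all lanes outside a small set. -/
theorem mtch (hP : PymSpec) {ι κ : Type} [Fintype ι] [Fintype κ] (d : ι → ℕ → κ → ℕ → Prop)
    (h1 : ∀ i k l, BddAbove {j | d i k l j})
    (h2 : ∀ i k l j l' j', d i k l j → d i k l' j' → l = l') :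
    ∃ (N : Finset κ) (B : ℕ) (n : ι → ℕ) (μ : ι → Option (κ × ℕ)),
      N.card ≤ Fintype.card ι ^ 2 ∧
      (∀ i, μ i = none → n i = B ∧ ∀ l ∉ N, ∀ k, B ≤ k → ∀ j, ¬ d i k l j) ∧
      (∀ i l J, μ i = some (l, J) → l ∉ N ∧ d i (n i) l J ∧
        ∀ i' k j, k ≤ n i' → d i' k l j → j ≤ J) ∧
      ∀ i' k l j, l ∉ N → k ≤ n i' → d i' k l j → ∃ i J, μ i = some (l, J) := by
  classical
  set q := Fintype.card ι with hq
  let nr : ι → Finset κ := fun i => Finset.univ.filter fun l => ∃ᶠ k in atTop, ∃ j, d i k l j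
  obtain ⟨A, hA, hmax⟩ := Finset.exists_max_image
    (Finset.univ.filter fun A : Finset ι => (A.biUnion nr).card ≤ q * A.card) Finset.card
    ⟨∅, by simp⟩
  rw [Finset.mem_filter] at hA
  set N := A.biUnion nr with hN
  have big : ∀ i ∉ A, q < (nr i \ N).card := fun i hi => by
    by_contra k
    have e := hmax (insert i A) (Finset.mem_filter.2 ⟨Finset.mem_univ _, by
      rw [Finset.biUnion_insert, Finset.card_insert_of_notMem hi, ← hN,
        ← Finset.sdiff_union_self_eq_union]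
      have := Finset.card_union_le (nr i \ N) N
      have := hA.2
      rw [mul_add, mul_one]
      omega⟩)
    rw [Finset.card_insert_of_notMem hi] at e
    omega
  obtain ⟨B, hB⟩ : ∃ B, ∀ p : ι × κ, (p.2 ∈ nr p.1 → ∃ k ≤ B, ∃ j, d p.1 k p.2 j) ∧
      (p.2 ∉ nr p.1 → ∀ k, B ≤ k → ∀ j, ¬ d p.1 k p.2 j) := by
    refine (eventually_all.2 fun p : ι × κ => ?_).exists (f := atTop)
    by_cases c : p.2 ∈ nr p.1
    · obtain ⟨k, hk⟩ := (Finset.mem_filter.1 c).2.exists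
      exact (eventually_ge_atTop k).mono fun B hB => ⟨fun _ => ⟨k, hB, hk⟩, fun e => absurd c e⟩
    · obtain ⟨k, hk⟩ := eventually_atTop.1 (not_frequently.1 fun e =>
        c (Finset.mem_filter.2 ⟨Finset.mem_univ _, e⟩))
      exact (eventually_ge_atTop k).mono fun B hB =>
        ⟨fun e => absurd e c, fun _ m hm j e => hk m (hB.trans hm) ⟨j, e⟩⟩
  obtain ⟨n, μ, -, m2, m3, m4⟩ := hP (fun i k l j => 0 ≤ j ∧ d i k l j.toNat ∧ l ∉ N) B
    (fun i k l => let ⟨r, hr⟩ := h1 i k l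
      ⟨r, fun j hj => by have := hr hj.2.1; omega⟩)
    fun i k l j l' j' e e' => h2 i k l _ l' _ e.2.1 e'.2.1
  have m5 : ∀ i' k l j, l ∉ N → k ≤ n i' → d i' k l j → ∃ i J, μ i = some (l, J) :=
    fun i' k l j e1 e2 e3 => m4 i' k l j e2 ⟨by omega, by simpa using e3, e1⟩
  refine ⟨N, B, n, fun i => (μ i).map fun p => (p.1, p.2.toNat), ?_, fun i hi => ?_,
    fun i l J hi => ?_, fun i' k l j e1 e2 e3 => ?_⟩
  · rw [sq]
    exact hA.2.trans (Nat.mul_le_mul_left _ A.card_le_univ)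
  · have hi' : μ i = none := by simpa using hi
    refine ⟨m2 i hi', fun l hl => (hB (i, l)).2 fun e => hl (Finset.mem_biUnion.2 ⟨i, ?_, e⟩)⟩
    by_contra k
    refine (big i k).not_ge ((Finset.card_le_card (t := Finset.univ.biUnion fun i =>
      ((μ i).map Prod.fst).toFinset) fun l hl => ?_).trans ((Finset.card_biUnion_le_card_mul _ _ 1
        fun i _ => ?_).trans (by simp [hq])))
    · obtain ⟨e1, e2⟩ := Finset.mem_sdiff.1 hl
      obtain ⟨k, hk, j, e3⟩ := (hB (i, l)).1 e1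
      obtain ⟨i', J, e4⟩ := m5 i k l j e2 (by rwa [m2 i hi']) e3
      exact Finset.mem_biUnion.2 ⟨i', Finset.mem_univ _, by simp [e4]⟩
    · cases μ i <;> simp
  · obtain ⟨⟨l', J'⟩, e1, e2⟩ := Option.map_eq_some_iff.1 hi
    obtain ⟨rfl, rfl⟩ := Prod.mk.inj e2
    obtain ⟨⟨-, e3, e4⟩, e5⟩ := m3 i _ _ e1
    refine ⟨e4, e3, fun i' k j hk e => ?_⟩
    have := e5 i' k j hk ⟨by omega, by simpa using e, e4⟩
    simp only
    omega
  · obtain ⟨i, J, e⟩ := m5 i' k l j e1 e2 e3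
    exact ⟨i, J.toNat, by simp [e]⟩

theorem rch_self {κ : Type} {H : SimpleGraph κ} {W U : Set κ} {a c : κ} (h : Rch H W a c)
    (hU : ∀ x, Rch H W a x → x ∈ U) : Rch H U a c := by
  induction h with
  | refl => exact .refl
  | tail h e ih => exact ih.tail ⟨hU _ h, hU _ (h.tail e), e.2.2⟩

theorem rch_exit {κ : Type} {H : SimpleGraph κ} {W : Set κ} {a c : κ} (h : Rch H univ a c)
    (ha : a ∈ W) : (c ∈ W ∧ Rch H W a c) ∨ ∃ x b, Rch H W a x ∧ b ∉ W ∧ H.Adj x b := by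
  induction h with
  | refl => exact Or.inl ⟨ha, .refl⟩
  | @tail x y _ e ih =>
    rcases ih with ⟨k, k'⟩ | k
    · by_cases c : y ∈ W
      exacts [Or.inl ⟨c, k'.tail ⟨k, c, e.2.2⟩⟩, Or.inr ⟨x, y, k', c, e.2.2⟩]
    · exact Or.inr k

variable {V : Type} {G : SimpleGraph V} [Fact G.Connected]

/-- All tokens are moved to lanes, using only lanes that are occupied at the end. -/
theorem lanes (hS : SlideSpec) {ι κ : Type} [Finite ι] [Finite κ] {K : ℕ} {R : κ → ℕ → V}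
    (h1 : ∀ c, LR G (R c)) (h2 : ∀ c d, c ≠ d → Far G K (range (R c)) (range (R d)))
    (h3 : ∀ a b, Rch (BG G K R) univ a b) {Ln : Set κ} (h4 : Nat.card ι ≤ Ln.ncard) (f : ι → κ)
    (hf : Function.Injective f) : ∃ f' : ι → κ, Function.Injective f' ∧ (∀ i, f' i ∈ Ln) ∧
      range f ∩ Ln ⊆ range f' ∧ ∀ (X O : ι → Set V) (F : Set V), F.Finite →
        (∀ i, O i ⊆ F ∪ ⋃ c ∈ Ln \ range f', range (R c)) →
        PQ G K X O (fun j => R (f j)) → PQ G K X O fun j => R (f' j) := by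
  induction hn : (range f \ Ln).ncard using Nat.strong_induction_on generalizing f with
  | _ t ih =>
  by_cases c : ∀ i, f i ∈ Ln
  · exact ⟨f, hf, c, inter_subset_left, fun _ _ _ _ _ h => h⟩
  push Not at c
  obtain ⟨i, hi⟩ := c
  obtain ⟨b0, e1, e2⟩ : ∃ b ∈ Ln, b ∉ range f := by
    by_contra k
    push Not at k
    have := ncard_lt_ncard (s := Ln) (t := range f) ⟨k, fun e => hi (e ⟨i, rfl⟩)⟩
    rw [ncard_range_of_injective hf] at this
    omega
  have ha : f i ∈ Lnᶜ ∪ range f := Or.inl hi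
  obtain ⟨x, b, k1, k2, k3⟩ := (rch_exit (h3 (f i) b0) ha).resolve_left fun k =>
    k.1.elim (fun k => k e1) e2
  rw [mem_union, not_or, mem_compl_iff, not_not] at k2
  set U := insert b {x | Rch (BG G K R) (Lnᶜ ∪ range f) (f i) x} with hU
  have u1 : ∀ y ∈ U, Rch (BG G K R) U (f i) y := by
    rintro y (rfl | hy)
    · exact (rch_self k1 fun _ k => Or.inr k).tail ⟨Or.inr k1, Or.inl rfl, k3⟩
    · exact rch_self hy fun _ k => Or.inr k
  have u2 : f i ∈ U := Or.inr .refl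
  have u3 : ∀ y ∈ U, y = b ∨ y ∈ Lnᶜ ∪ range f := by
    rintro y (rfl | hy)
    · exact Or.inl rfl
    · rcases hy.cases_tail with rfl | ⟨_, -, k⟩
      exacts [Or.inr ha, Or.inr k.2.1]
  obtain ⟨g, g1, g2, g3, g4⟩ := hS G K R f U (insert b ((U ∩ range f) \ {f i})) h1 h2 hf
    (fun a ha b hb => (u1 a ha).symm.trans (u1 b hb))
    (insert_subset (Or.inl rfl) fun _ k => k.1.1) (by
      rw [ncard_exchange (s := U ∩ range f) (fun k => k2.2 k.2) ⟨u2, i, rfl⟩,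
        ← image_preimage_eq_inter_range, ncard_image_of_injective _ hf])
  have r1 : range g ⊆ insert b (range f \ {f i}) := by
    rintro _ ⟨j, rfl⟩
    by_cases c : f j ∈ U
    · exact (g3.subset ⟨j, c, rfl⟩).imp_right fun k => ⟨k.1.2, k.2⟩
    · exact Or.inr ⟨⟨j, (g2 j c).symm⟩, fun k => c ((g2 j c).symm.trans k ▸ u2)⟩
  have r2 : insert b (range f ∩ Ln) ⊆ range g ∩ Ln := by
    rintro y (rfl | ⟨⟨j, rfl⟩, hj⟩)
    · exact ⟨image_subset_range _ _ (g3.superset (Or.inl rfl)), k2.1⟩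
    · by_cases c : f j ∈ U
      · exact ⟨image_subset_range _ _ (g3.superset (Or.inr ⟨⟨c, j, rfl⟩, fun k => hi (k ▸ hj)⟩)), hj⟩
      · exact ⟨⟨j, g2 j c⟩, hj⟩
  obtain ⟨f', p1, p2, p3, p4⟩ := ih _ (hn ▸ ncard_lt_ncard (s := range g \ Ln) ⟨fun y hy =>
    ⟨((r1 hy.1).resolve_left fun k => hy.2 (k ▸ k2.1)).1, hy.2⟩, fun k =>
      (r1 (k ⟨⟨i, rfl⟩, hi⟩).1).elim (fun k => hi (k ▸ k2.1)) fun k => k.2 rfl⟩) g g1 rfl
  refine ⟨f', p1, p2, fun y hy => p3 (r2 (Or.inr hy)), fun X O F hF hO h =>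
    p4 X O F hF hO (g4 X O F hF (fun j _ => (hO j).trans (union_subset_union_right _
      (biUnion_subset_biUnion_left fun y hy k => hy.2 (p3 (r2 ?_))))) h)⟩
  exact (u3 y k).imp_right fun k => ⟨k.resolve_left fun k => k hy.1, hy.1⟩

/-- The first tokens. -/
theorem init {ι : Type} {σ : ℕ} {M ρ : ι → ℕ → V} {n m : ι → ℕ} {O : ι → Set V}
    (hM : ∀ i, LR G (M i)) (t3 : ∀ i j, i ≠ j → Far G (9 * σ) (range (M i)) (range (M j)))
    (t2 : ∀ i j, i ≠ j → Far G (3 * σ) (range (ρ i)) (range (ρ j)))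
    (t4 : ∀ i, G.dist (M i (n i)) (ρ i (m i)) ≤ 3 * σ)
    (t1 : ∀ i j, i ≠ j → ∀ k, m i < k → ∀ k' ≤ n j, 3 * σ ≤ G.dist (ρ i k) (M j k'))
    (hO : ∀ i, ∀ y ∈ O i, (∀ k ≤ n i, 3 * σ ≤ G.dist y (M i k)) ∧ ∀ k, 3 * σ ≤ G.dist y (ρ i k)) :
    PQ G σ (fun i => {M i 0}) O ρ := by
  choose P p1 p2 p3 p4 using fun i => (Lk.geo (G := G) (x := M i (n i)) (y := ρ i (m i))
    (S := {z | G.dist (M i (n i)) z + G.dist z (ρ i (m i)) ≤ 3 * σ})
      fun z hz => hz.trans (t4 i)).fin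
  have key : ∀ i, ∀ z ∈ Br (M i '' Iic (n i) ∪ P i) (ρ i) (m i), ((∃ k, G.dist (M i k) z ≤ 3 * σ) ∧
      ∀ y, (∀ k ≤ n i, 3 * σ ≤ G.dist y (M i k)) → (∀ k, 3 * σ ≤ G.dist y (ρ i k)) →
        σ ≤ G.dist y z) ∨ ∃ k, m i < k ∧ ρ i k = z := by
    rintro i z ((⟨k, hk, rfl⟩ | hz) | ⟨k, hk, rfl⟩)
    · exact Or.inl ⟨⟨k, by simp⟩, fun y e _ => by have := e k hk; omega⟩
    · have e : G.dist (M i (n i)) z + G.dist z (ρ i (m i)) ≤ 3 * σ := p2 i hz
      refine Or.inl ⟨⟨n i, by omega⟩, fun y e1 e2 => ?_⟩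
      have := e1 _ le_rfl
      have := e2 (m i)
      have := tri (G := G) y z (M i (n i))
      have := tri (G := G) y z (ρ i (m i))
      rw [dcomm _ z] at e
      omega
    · rcases (show m i ≤ k from hk).eq_or_lt with rfl | hk
      exacts [Or.inl ⟨⟨_, t4 i⟩, fun y _ e => by have := e (m i); omega⟩, Or.inr ⟨k, hk, rfl⟩]
  refine ⟨fun i => M i '' Iic (n i) ∪ P i, m, fun i => ⟨((finite_Iic _).image _).union (p1 i),
    singleton_subset_iff.2 (Or.inl ⟨0, Nat.zero_le _, rfl⟩), Or.inr (p4 i _ (p3 i)).right, ?_,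
    fun y hy z hz => ?_⟩, fun i j e y hy z hz => ?_⟩
  · have k : ∀ z ∈ M i '' Iic (n i) ∪ P i, Lk G (M i '' Iic (n i) ∪ P i) z (ρ i (m i)) := by
      rintro z (⟨k, hk, rfl⟩ | hz)
      · exact ((hM i).lk fun l _ hl => Or.inl ⟨l, hl.trans (max_le hk le_rfl), rfl⟩).trans
          ((p4 i _ (p3 i)).mono subset_union_right)
      · exact (p4 i z hz).mono subset_union_right
    exact fun x hx y hy => (k x hx).trans (k y hy).symm
  · rcases key i z hz with k | ⟨k, -, rfl⟩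
    · exact k.2 y (hO i y hy).1 (hO i y hy).2
    · have := (hO i y hy).2 k
      omega
  · rcases key i y hy with ⟨⟨a, ha⟩, a'⟩ | ⟨a, ha, rfl⟩ <;>
      rcases key j z hz with ⟨⟨b, hb⟩, b'⟩ | ⟨b, hb, rfl⟩
    · have := t3 i j e _ ⟨a, rfl⟩ _ ⟨b, rfl⟩
      have := tri (G := G) (M i a) y (M j b)
      have := tri (G := G) y z (M j b)
      rw [dcomm _ z] at hb
      omega
    · rw [dcomm]
      exact a' _ (t1 j i e.symm b hb) fun k => t2 j i e.symm _ ⟨b, rfl⟩ _ ⟨k, rfl⟩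
    · exact b' _ (t1 i j e a ha) fun k => t2 i j e _ ⟨a, rfl⟩ _ ⟨k, rfl⟩
    · have := t2 i j e _ ⟨a, rfl⟩ _ ⟨b, rfl⟩
      omega

/-- Tokens give rays. -/
theorem rer {ι : Type} {σ : ℕ} {ω : ℕ → V} {M ρ : ι → ℕ → V} {O : ι → Set V} (hω : LR G ω)
    (h1 : ∀ i, LR G (ρ i)) (h2 : ∀ i, SE G (ρ i) ω) (h : PQ G σ (fun i => {M i 0}) O ρ) :
    ∃ Ψ, Rer G σ ω M ρ O Ψ := by
  obtain ⟨Z, n, z1, z2⟩ := h
  choose Ψ p1 p2 p3 p4 using fun i =>
    splice (h1 i) ((z1 i).2.2.2.1 _ ((z1 i).2.1 rfl) _ (z1 i).2.2.1)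
  exact ⟨Ψ, ⟨p1, fun i => ((p3 i).se (p1 i)).trans (h2 i) (p1 i) (h1 i) hω,
    fun i j e => (z2 i j e).mono (p4 i) (p4 j)⟩,
    fun i => ⟨p2 i, p3 i, (z1 i).2.2.2.2.mono le_rfl (p4 i)⟩⟩

end UP

theorem upSpec : PymSpec → ReachSpec → MoveSpec → SlideSpec → UPSpec := by
  intro hP hR _ hS V ι κ G _ _ _ _ σ ω M L O P hσ hω hM hL hc hO hQ
  classical
  obtain ⟨N, B, n, μ, n1, n2, n3, n4⟩ := UP.mtch hP
    (fun i k l j => G.dist (M i k) (L l j) < 3 * σ)
    (fun i k l => let ⟨r, hr⟩ := eventually_atTop.1 ((hL.lr l).2 (M i k) (3 * σ))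
      ⟨r, fun j hj => le_of_not_ge fun e => (hr j e).not_gt hj⟩)
    fun i k l j l' j' e e' => by
      by_contra c
      have := hL.far l l' c _ ⟨j, rfl⟩ _ ⟨j', rfl⟩
      have := tri (G := G) (L l j) (M i k) (L l' j')
      rw [dcomm] at e
      omega
  let R : {i // μ i = none} ⊕ {l // l ∉ N} → ℕ → V :=
    Sum.elim (fun i k => M i (B + k)) fun l => L l
  have rs : ∀ i : {i // μ i = none}, range (R (.inl i)) ⊆ range (M i) := by
    rintro i _ ⟨k, rfl⟩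
    exact ⟨_, rfl⟩
  have hRF : RF G (3 * σ) ω R := by
    have k : ∀ i l, Far G (3 * σ) (range (R (.inl i))) (range (R (.inr l))) := by
      rintro i l _ ⟨k, rfl⟩ _ ⟨j, rfl⟩
      exact not_lt.1 ((n2 i i.2).2 l l.2 _ (Nat.le_add_right _ _) j)
    refine ⟨?_, ?_, ?_⟩
    · rintro (i | l)
      exacts [(hM.lr i).shift B, hL.lr l]
    · rintro (i | l)
      exacts [((TE.shift (M i) B).se ((hM.lr i).shift B)).trans (hM.se i) ((hM.lr i).shift B)
        (hM.lr i) hω, hL.se l]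
    · rintro (i | l) (i' | l') e
      exacts [((hM.far i i' fun c => e (congrArg _ (Subtype.ext c))).mono (rs i) (rs i')).le
        (by omega), k i l', (k i' l).symm,
        (hL.far l l' fun c => e (congrArg _ (Subtype.ext c))).le (by omega)]
  choose f m hf using fun i => show ∃ (c : {i // μ i = none} ⊕ {l // l ∉ N}) (m : ℕ),
      (∃ h : μ i = none, c = .inl ⟨i, h⟩ ∧ m = 0) ∨
        ∃ (l : κ) (h : l ∉ N), μ i = some (l, m) ∧ c = .inr ⟨l, h⟩ by
    rcases Option.eq_none_or_eq_some (μ i) with h | ⟨⟨l, J⟩, h⟩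
    exacts [⟨_, _, Or.inl ⟨h, rfl, rfl⟩⟩, ⟨_, _, Or.inr ⟨l, (n3 i l J h).1, h, rfl⟩⟩]
  have fi : Function.Injective f := fun i j e => by
    rcases hf i with ⟨a, a1, -⟩ | ⟨l, a, a1, a2⟩ <;> rcases hf j with ⟨b, b1, -⟩ | ⟨l', b, b1, b2⟩
    · simpa [a1, b1] using e
    · simp [a1, b2] at e
    · simp [a2, b1] at e
    · obtain rfl : l = l' := by simpa [a2, b2] using e
      obtain ⟨-, c1, c2⟩ := n3 i _ _ a1
      obtain ⟨-, d1, d2⟩ := n3 j _ _ b1
      rw [le_antisymm (d2 i _ _ le_rfl c1) (c2 j _ _ le_rfl d1)] at c1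
      by_contra c
      have := hM.far i j c _ ⟨n i, rfl⟩ _ ⟨n j, rfl⟩
      have := tri (G := G) (M i (n i)) (L l (m j)) (M j (n j))
      rw [dcomm] at d1
      omega
  obtain ⟨g, g1, g2, g3, g4⟩ := UP.lanes hS hRF.lr (hRF.le (show σ ≤ _ by omega)).far
    ((hRF.le (by omega)).rch hR hσ hω) (Ln := range Sum.inr) (ι := ι) (by
      rw [ncard_range_of_injective Sum.inr_injective, Nat.card_eq_fintype_card,
        Nat.card_eq_fintype_card, Fintype.card_subtype_compl, Fintype.card_coe]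
      omega) f fi
  choose τ hτ using g2
  obtain rfl : (fun i => Sum.inr (τ i)) = g := funext hτ
  have τi : Function.Injective fun i => (τ i : κ) := fun i j e =>
    g1 (congrArg Sum.inr (Subtype.ext e))
  set T := N ∪ Finset.univ.image fun i => (τ i : κ) with hT
  have t1 : ∀ l ∉ T, ∃ h : l ∉ N, Sum.inr ⟨l, h⟩ ∉ range fun i => (Sum.inr (τ i) :
      {i // μ i = none} ⊕ {l // l ∉ N}) := fun l hl =>
    ⟨fun e => hl (Finset.mem_union_left _ e), fun ⟨i, e⟩ => hl (Finset.mem_union_right _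
      (Finset.mem_image.2 ⟨i, Finset.mem_univ _, congrArg Subtype.val (Sum.inr_injective e)⟩))⟩
  have t2 : ∀ l ∉ T, ∀ i h, f i ≠ .inr ⟨l, h⟩ := fun l hl i h e =>
    (t1 l hl).2 (g3 ⟨⟨i, e⟩, _, rfl⟩)
  have hF : ((⋃ i, O i) ∪ ⋃ l, P l).Finite :=
    (finite_iUnion fun i => (hO i).1).union (finite_iUnion fun l => (hQ l).1)
  have pq : PQ G σ (fun i => {M i 0}) (fun i => O i ∪ ⋃ l ∉ T, (P l ∪ range (L l)))
      fun i => L (τ i) := by
    refine g4 _ _ _ hF (fun i => ?_) (UP.init (n := n) (m := m) hM.lr hM.far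
      (fun i j e => hRF.far _ _ (fi.ne e)) (fun i => ?_) (fun i j e k hk k' hk' => ?_)
      fun i y hy => ?_)
    · rintro y (hy | hy)
      · exact Or.inl (Or.inl (mem_iUnion.2 ⟨i, hy⟩))
      · obtain ⟨l, hl, hy | hy⟩ := mem_iUnion₂.1 hy
        exacts [Or.inl (Or.inr (mem_iUnion.2 ⟨l, hy⟩)),
          Or.inr (mem_iUnion₂.2 ⟨.inr ⟨l, (t1 l hl).1⟩, ⟨⟨_, rfl⟩, (t1 l hl).2⟩, hy⟩)]
    · rcases hf i with ⟨a, a1, a2⟩ | ⟨l, a, a1, a2⟩
      · simp [a1, a2, R, (n2 i a).1]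
      · rw [a2]
        exact (n3 i _ _ a1).2.1.le
    · rcases hf i with ⟨a, a1, a2⟩ | ⟨l, a, a1, a2⟩
      · have := hM.far i j e _ (rs ⟨i, a⟩ ⟨k, rfl⟩) _ ⟨k', rfl⟩
        rw [a1]
        omega
      · rw [a2, dcomm]
        exact not_lt.1 fun c => ((n3 i _ _ a1).2.2 j k' k hk' c).not_gt hk
    · have key : Far G (9 * σ) {y} (range (M i)) →
          (∀ l h, f i = .inr ⟨l, h⟩ → Far G (9 * σ) {y} (range (L l))) →
          (∀ k ≤ n i, 3 * σ ≤ G.dist y (M i k)) ∧ ∀ k, 3 * σ ≤ G.dist y (R (f i) k) :=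
        fun e1 e2 => ⟨fun k _ => (e1.le (by omega)) _ rfl _ ⟨k, rfl⟩, fun k => by
          rcases hf i with ⟨a, a1, -⟩ | ⟨l, a, -, a2⟩
          · rw [a1]
            exact (e1.le (by omega)) _ rfl _ (rs ⟨i, a⟩ ⟨k, rfl⟩)
          · have := e2 l a a2 _ rfl _ ⟨k, rfl⟩
            rw [a2]
            exact le_trans (by omega) this⟩
      rcases hy with hy | hy
      · exact key ((hO i).2.1.mono (singleton_subset_iff.2 hy) le_rfl) fun l _ _ =>
          ((hO i).2.2 l).mono (singleton_subset_iff.2 hy) le_rfl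
      obtain ⟨l, hl, hy | ⟨j, rfl⟩⟩ := mem_iUnion₂.1 hy
      · exact key (((hQ l).2.1 i).mono (singleton_subset_iff.2 hy) le_rfl) fun l' h e =>
          ((hQ l).2.2 l' fun c => t2 l hl i (c ▸ h) (c ▸ e)).mono (singleton_subset_iff.2 hy) le_rfl
      · refine ⟨fun k hk => not_lt.1 fun c => ?_, fun k => hRF.far (.inr ⟨l, (t1 l hl).1⟩) (f i)
          (t2 l hl i _).symm _ ⟨j, rfl⟩ _ ⟨k, rfl⟩⟩
        obtain ⟨i', J, e⟩ := n4 i k l j (t1 l hl).1 hk (by rwa [dcomm])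
        rcases hf i' with ⟨a, -⟩ | ⟨l', a, a1, a2⟩
        · simp [a] at e
        · obtain rfl : l' = l := by simpa using (congrArg (Option.map Prod.fst) (a1.symm.trans e))
          exact t2 l' hl i' a a2
  refine ⟨?_, fun e he => ?_⟩
  · obtain ⟨Ψ, p1, p2⟩ := UP.rer hω (fun i => hL.lr _) (fun i => hL.se _) pq
    refine ⟨_, T, Ψ, τi, (Finset.card_union_le _ _).trans ?_, ⟨p1, fun i => ⟨(p2 i).1, (p2 i).2.1,
      (p2 i).2.2.mono subset_union_left le_rfl⟩⟩, fun i l hl =>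
        ((p2 i).2.2.mono (fun y hy => Or.inr (mem_iUnion₂.2 ⟨l, hl, hy⟩)) le_rfl).symm⟩
    have := Finset.card_image_le (s := Finset.univ) (f := fun i => (τ i : κ))
    rw [Finset.card_univ] at this
    omega
  · obtain ⟨f', q1, -, q2, q3⟩ := hS G σ L (fun i => (τ i : κ)) univ (range e) hL.lr
      (hL.le (by omega)).far τi (fun a _ b _ => (hL.le (by omega)).rch hR hσ hω a b)
      (subset_univ _) (by rw [ncard_range_of_injective he, preimage_univ, ncard_univ])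
    choose π hπ using fun i => q2.subset ⟨i, trivial, rfl⟩
    have πi : Function.Injective π := fun i j c => q1 ((hπ i).symm.trans (c ▸ hπ j))
    obtain ⟨Z, k, z1, z2⟩ := pq
    obtain ⟨Ψ, p⟩ := UP.rer hω (fun i => hL.lr _) (fun i => hL.se _) (q3 _ O _ hF
      (fun i _ y hy => Or.inl (Or.inl (mem_iUnion.2 ⟨i, hy⟩))) ⟨Z, k, fun i => ⟨(z1 i).1,
        (z1 i).2.1, (z1 i).2.2.1, (z1 i).2.2.2.1, (z1 i).2.2.2.2.mono subset_union_left le_rfl⟩,
        z2⟩)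
    exact ⟨Equiv.ofBijective π (Finite.injective_iff_bijective.1 πi), Ψ, by
      simpa only [Equiv.ofBijective_apply, hπ] using p⟩

end Pool.Agent.MP_77f003_co.H49
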