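import Pool.Agent.MP_77f003_co.H49.USpec

/-!
The von Neumann dimension of the kernel of an invariant bounded matrix.
-/

namespace Pool.Agent.MP_77f003_co.H49

open Filter Topology
open scoped RealInnerProductSpace

variable {V Γ E X Y Z : Type}

/-- The Hilbert space of square summable functions. -/
abbrev DimH (X : Type) := lp (fun _ : X => ℝ) 2

theorem dim_mem (c : X → ℝ) : Memℓp c 2 ↔ L2 c := by
  rw [memℓp_gen_iff (by norm_num)]
  simp [L2]

theorem dim_l2 (f : DimH X) : L2 (⇑f) := (dim_mem _).1 (lp.memℓp f)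

open Classical in
/-- The unit vector at a point. -/
noncomputable def dimD (x : X) : DimH X := lp.single 2 x 1

theorem dimD_inner (x : X) (f : DimH X) : ⟪dimD x, f⟫ = f x := by
  classical
  rw [dimD, lp.inner_single_left]
  simp

theorem dimD_self (x : X) : dimD x x = 1 := by
  classical
  exact lp.single_apply_self _ _ _

theorem dimD_ne {x y : X} (h : y ≠ x) : dimD x y = 0 := by
  classical
  exact lp.single_apply_ne _ _ _ h

theorem dim_tendsto {ι : Type} {l : Filter ι} {u : ι → DimH X} {f : DimH X}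
    (h : Tendsto u l (𝓝 f)) (x : X) : Tendsto (fun n => u n x) l (𝓝 (f x)) :=
  ((lp.evalCLM ℝ (fun _ : X => ℝ) 2 x).continuous.tendsto f).comp h

theorem Mat.dimRow {t : Y → X → ℝ} (h : Mat t) (y : Y) : {x | t y x ≠ 0}.Finite := by
  obtain ⟨b, -, h2, -⟩ := h
  exact Set.finite_of_encard_le_coe (h2 y)

theorem Mat.dimSwap {t : Y → X → ℝ} (h : Mat t) : Mat fun x y => t y x := by
  obtain ⟨b, h1, h2, h3⟩ := h
  exact ⟨b, fun x y => h1 y x, h3, h2⟩

theorem dim_app {t : Y → X → ℝ} (h : Mat t) (c : X → ℝ) (y : Y) :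
    app t c y = ∑ x ∈ (h.dimRow y).toFinset, t y x * c x :=
  finsum_eq_sum_of_support_subset_of_finite (fun x => t y x * c x)
    (fun _ hx => left_ne_zero_of_mul hx) _

/-- The linear map of a bounded matrix. -/
noncomputable def dimLin (hM : MatSpec) {t : Y → X → ℝ} (h : Mat t) : DimH X →ₗ[ℝ] DimH Y where
  toFun f := ⟨app t f, (dim_mem _).2 (hM t f h (dim_l2 f))⟩
  map_add' f g := by
    ext y
    change app t (⇑(f + g)) y = app t f y + app t g y
    simp only [dim_app h, lp.coeFn_add, Pi.add_apply, mul_add, Finset.sum_add_distrib]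
  map_smul' a f := by
    ext y
    change app t (⇑(a • f)) y = a * app t f y
    simp only [dim_app h, lp.coeFn_smul, Pi.smul_apply, smul_eq_mul, Finset.mul_sum]
    exact Finset.sum_congr rfl fun x _ => by ring

/-- The operator of a bounded matrix. -/
noncomputable def dimOp (hM : MatSpec) {t : Y → X → ℝ} (h : Mat t) : DimH X →L[ℝ] DimH Y :=
  ContinuousLinearMap.ofSeqClosedGraph (g := dimLin hM h) fun u f g hu hg => by
    ext y
    refine tendsto_nhds_unique (dim_tendsto hg y) ?_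
    change Tendsto (fun n => app t (u n) y) atTop (𝓝 (app t f y))
    simp only [dim_app h]
    exact tendsto_finsetSum _ fun x _ => (dim_tendsto hu x).const_mul _

theorem dimOp_apply (hM : MatSpec) {t : Y → X → ℝ} (h : Mat t) (f : DimH X) :
    ⇑(dimOp hM h f) = app t f := rfl

theorem dimOp_D (hM : MatSpec) {t : Y → X → ℝ} (h : Mat t) (x : X) (y : Y) :
    dimOp hM h (dimD x) y = t y x := by
  rw [dimOp_apply, app, finsum_eq_single _ x fun x' hx' => by rw [dimD_ne hx', mul_zero],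
    dimD_self, mul_one]

theorem dimOp_adj (hM : MatSpec) {t : Y → X → ℝ} (h : Mat t) (f : DimH X) (g : DimH Y) :
    ⟪dimOp hM h f, g⟫ = ⟪f, dimOp hM h.dimSwap g⟫ := by
  have : dimOp hM h.dimSwap g = ContinuousLinearMap.adjoint (dimOp hM h) g := by
    ext x
    rw [← dimD_inner x (ContinuousLinearMap.adjoint (dimOp hM h) g),
      ContinuousLinearMap.adjoint_inner_right, lp.inner_eq_tsum, dimOp_apply, app]
    have e : ∀ y, ⟪dimOp hM h (dimD x) y, g y⟫ = t y x * g y := fun y => by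
      rw [dimOp_D]
      simp [mul_comm]
    simp only [e]
    exact (tsum_eq_finsum ((h.dimSwap.dimRow x).subset fun _ hy => left_ne_zero_of_mul hy)).symm
  rw [this, ContinuousLinearMap.adjoint_inner_right]

/-- Averages of the powers of `1 - c T' T` converge to the projection onto the kernel of `T`. -/
theorem dim_erg {H H' : Type} [NormedAddCommGroup H] [InnerProductSpace ℝ H] [CompleteSpace H]
    [NormedAddCommGroup H'] [InnerProductSpace ℝ H'] (T : H →L[ℝ] H') (T' : H' →L[ℝ] H)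
    (adj : ∀ f g, ⟪T f, g⟫ = ⟪f, T' g⟫) {c : ℝ} (hc : 0 < c) (hc2 : c * ‖T'‖ ^ 2 ≤ 2)
    (K : Submodule ℝ H) [K.HasOrthogonalProjection] (hK : ∀ f, f ∈ K ↔ T f = 0) (f : H) :
    Tendsto (fun N : ℕ => ((N : ℝ)⁻¹ • ∑ n ∈ Finset.range N, (1 - c • T' ∘L T) ^ n) f) atTop
      (𝓝 (K.starProjection f)) := by
  set S : H →L[ℝ] H := 1 - c • T' ∘L T with hS
  have hSa : ∀ f, S f = f - c • T' (T f) := fun f => rfl
  have h1 : ∀ f, ⟪f, T' (T f)⟫ = ‖T f‖ ^ 2 := fun f => by
    rw [← adj, real_inner_self_eq_norm_sq]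
  have hn : ‖S‖ ≤ 1 := by
    refine S.opNorm_le_bound zero_le_one fun f => ?_
    rw [one_mul, ← sq_le_sq₀ (norm_nonneg _) (norm_nonneg _), hSa, norm_sub_sq_real,
      inner_smul_right, h1, norm_smul, Real.norm_of_nonneg hc.le, mul_pow]
    have h2 : ‖T' (T f)‖ ^ 2 ≤ ‖T'‖ ^ 2 * ‖T f‖ ^ 2 := by
      rw [← mul_pow]
      exact pow_le_pow_left₀ (norm_nonneg _) (T'.le_opNorm _) 2
    have h3 : c * (c * ‖T'‖ ^ 2) * ‖T f‖ ^ 2 ≤ c * 2 * ‖T f‖ ^ 2 := by gcongr
    have h4 : c ^ 2 * ‖T' (T f)‖ ^ 2 ≤ c ^ 2 * (‖T'‖ ^ 2 * ‖T f‖ ^ 2) := by gcongr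
    nlinarith
  have hE : S.eqLocus (1 : H →L[ℝ] H) = K := by
    ext f
    rw [hK]
    change S f = f ↔ _
    rw [hSa, sub_eq_self, smul_eq_zero_iff_right hc.ne']
    refine ⟨fun h => ?_, fun h => by rw [h, map_zero]⟩
    have := h1 f
    rw [h, inner_zero_right] at this
    exact norm_eq_zero.1 (pow_eq_zero_iff two_ne_zero |>.1 this.symm)
  subst hE
  refine (S.tendsto_birkhoffAverage_orthogonalProjection hn f).congr fun N => ?_
  simp [birkhoffAverage, birkhoffSum]

section

variable [Group Γ] [MulAction Γ V] [MulAction Γ E] [MulAction Γ X] [MulAction Γ Y] [MulAction Γ Z]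

/-- An operator that commutes with the action. -/
def DimInv (Γ : Type) [Group Γ] [MulAction Γ X] [MulAction Γ Y] (A : DimH X →L[ℝ] DimH Y) : Prop :=
  ∀ (g : Γ) (f f' : DimH X), (∀ x, f' (g • x) = f x) → ∀ y, A f' (g • y) = A f y

theorem DimInv.diag {A : DimH X →L[ℝ] DimH Y} (h : DimInv Γ A) (g : Γ) (x : X) (y : Y) :
    A (dimD (g • x)) (g • y) = A (dimD x) y := by
  refine h g _ _ (fun x' => ?_) y
  by_cases e : x' = x
  · rw [e, dimD_self, dimD_self]
  · rw [dimD_ne e, dimD_ne fun e' => e (MulAction.injective g e')]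

theorem DimInv.comp {A : DimH Y →L[ℝ] DimH Z} {B : DimH X →L[ℝ] DimH Y} (hA : DimInv Γ A)
    (hB : DimInv Γ B) : DimInv Γ (A ∘L B) := fun g f f' h => hA g _ _ (hB g f f' h)

theorem DimInv.smul {A : DimH X →L[ℝ] DimH Y} (hA : DimInv Γ A) (c : ℝ) : DimInv Γ (c • A) :=
  fun g f f' h y => congrArg (c * ·) (hA g f f' h y)

theorem DimInv.add {A B : DimH X →L[ℝ] DimH Y} (hA : DimInv Γ A) (hB : DimInv Γ B) :
    DimInv Γ (A + B) := fun g f f' h y => congrArg₂ (· + ·) (hA g f f' h y) (hB g f f' h y)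

theorem DimInv.sub {A B : DimH X →L[ℝ] DimH Y} (hA : DimInv Γ A) (hB : DimInv Γ B) :
    DimInv Γ (A - B) := fun g f f' h y => congrArg₂ (· - ·) (hA g f f' h y) (hB g f f' h y)

theorem DimInv.pow {A : DimH X →L[ℝ] DimH X} (hA : DimInv Γ A) (n : ℕ) : DimInv Γ (A ^ n) := by
  induction n with
  | zero => exact fun g f f' h => h
  | succ n ih =>
    rw [pow_succ]
    exact ih.comp hA

theorem DimInv.sum {A : ℕ → DimH X →L[ℝ] DimH Y} (hA : ∀ n, DimInv Γ (A n)) (N : ℕ) :
    DimInv Γ (∑ n ∈ Finset.range N, A n) := by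
  induction N with
  | zero => exact fun g f f' h y => rfl
  | succ n ih =>
    rw [Finset.sum_range_succ]
    exact ih.add (hA n)

theorem dimOp_inv (hM : MatSpec) {t : Y → X → ℝ} (h : Mat t) (hi : Inv Γ t) :
    DimInv Γ (dimOp hM h) := fun g f f' e y => by
  rw [dimOp_apply, dimOp_apply, app, app, ← finsum_comp_equiv (MulAction.toPerm g)]
  exact finsum_congr fun x => by rw [MulAction.toPerm_apply, hi, e]

theorem Inv.dimSwap {t : Y → X → ℝ} (h : Inv Γ t) : Inv Γ fun x y => t y x :=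
  fun g x y => h g y x

theorem dim_wsum {s : X → Set V} (hs : GS Γ s) (o : V) (φ : X → ℝ) :
    wsum s o φ = ∑ x ∈ (hs.lf o).toFinset, φ x / (s x).ncard :=
  finsum_mem_eq_finite_toFinset_sum _ _

/-- The trace of an operator. -/
noncomputable def dimTr {s : X → Set V} (hs : GS Γ s) (o : V) :
    (DimH X →L[ℝ] DimH X) →ₗ[ℝ] ℝ where
  toFun A := wsum s o fun x => A (dimD x) x
  map_add' A B := by
    simp only [dim_wsum hs, ← Finset.sum_add_distrib, ← add_div]
    rfl
  map_smul' c A := by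
    simp only [dim_wsum hs, smul_eq_mul, Finset.mul_sum, ← mul_div_assoc]
    rfl

theorem dimTr_apply {s : X → Set V} (hs : GS Γ s) (o : V) (A : DimH X →L[ℝ] DimH X) :
    dimTr hs o A = wsum s o fun x => A (dimD x) x := rfl

theorem dimTr_one {s : X → Set V} (hs : GS Γ s) (o : V) : dimTr hs o 1 = wsum s o 1 := by
  rw [dimTr_apply]
  exact congrArg _ (funext fun x => dimD_self x)

theorem dimTr_tendsto {s : X → Set V} (hs : GS Γ s) (o : V) {A : ℕ → DimH X →L[ℝ] DimH X}
    {P : DimH X →L[ℝ] DimH X} (h : ∀ f, Tendsto (fun n => A n f) atTop (𝓝 (P f))) :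
    Tendsto (fun n => dimTr hs o (A n)) atTop (𝓝 (dimTr hs o P)) := by
  simp only [dimTr_apply, dim_wsum hs]
  exact tendsto_finsetSum _ fun x _ => (dim_tendsto (h _) x).div_const _

/-- Mass transport between the rows and the columns of an invariant matrix. -/
theorem dim_mtp (hF : FibSpec) {o : V} (hT : TU Γ o) {s : E → Set V} {sX : X → Set V}
    (hs : GS Γ s) (hX : GS Γ sX) {t : X → E → ℝ} (h : Mat t) (hi : Inv Γ t) (a : X → E → ℝ)
    (ha : Inv Γ a) :
    (wsum s o fun e => ∑ᶠ x, t x e * a x e) = wsum sX o fun x => ∑ᶠ e, t x e * a x e := by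
  let W : SubMulAction Γ (X × E) :=
    { carrier := {z | t z.1 z.2 ≠ 0}
      smul_mem' := fun g z hz => by
        change t (g • z.1) (g • z.2) ≠ 0
        rw [hi]
        exact hz }
  have inj : ∀ z z' : W, z.1.1 = z'.1.1 → z.1.2 = z'.1.2 → z = z' := fun z z' h1 h2 =>
    Subtype.ext (Prod.ext h1 h2)
  have b1 : ∀ e, Set.BijOn (fun z : W => z.1.1) {z | z.1.2 = e} {x | t x e ≠ 0} := fun e =>
    ⟨fun z hz => by
      have h2 : t z.1.1 z.1.2 ≠ 0 := z.2
      rwa [show z.1.2 = e from hz] at h2,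
    fun z hz z' hz' h1 => inj z z' h1 (hz.trans hz'.symm),
    fun x hx => ⟨⟨(x, e), hx⟩, rfl, rfl⟩⟩
  have b2 : ∀ x, Set.BijOn (fun z : W => z.1.2) {z | z.1.1 = x} {e | t x e ≠ 0} := fun x =>
    ⟨fun z hz => by
      have h2 : t z.1.1 z.1.2 ≠ 0 := z.2
      rwa [show z.1.1 = x from hz] at h2,
    fun z hz z' hz' h1 => inj z z' (hz.trans hz'.symm) h1,
    fun e he => ⟨⟨(x, e), he⟩, rfl, rfl⟩⟩
  have f1 : ∀ e, {z : W | z.1.2 = e}.Finite := fun e =>
    (b1 e).finite_iff_finite.2 (h.dimSwap.dimRow e)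
  have f2 : ∀ x, {z : W | z.1.1 = x}.Finite := fun x => (b2 x).finite_iff_finite.2 (h.dimRow x)
  have hW : GS Γ fun z : W => s z.1.2 :=
    { fin := fun z => hs.fin _
      ne := fun z => hs.ne _
      eqv := fun g z v hv => hs.eqv g _ v hv
      lf := fun v => ((hs.lf v).biUnion fun e _ => f1 e).subset fun z hz =>
        Set.mem_biUnion (x := z.1.2) hz rfl }
  have hφ : ∀ (g : Γ) (z : W), t (g • z).1.1 (g • z).1.2 * a (g • z).1.1 (g • z).1.2 =
      t z.1.1 z.1.2 * a z.1.1 z.1.2 := fun g z => congrArg₂ (· * ·) (hi g _ _) (ha g _ _)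
  have e1 := hF o (fun z : W => s z.1.2) s (fun z => z.1.2)
    (fun z => t z.1.1 z.1.2 * a z.1.1 z.1.2) hT hW hs (fun _ _ => rfl) f1 hφ
  have e2 := hF o (fun z : W => s z.1.2) sX (fun z => z.1.1)
    (fun z => t z.1.1 z.1.2 * a z.1.1 z.1.2) hT hW hX (fun _ _ => rfl) f2 hφ
  refine Eq.trans ?_ ((e1.symm.trans e2).trans ?_)
  · refine congrArg _ (funext fun e => ?_)
    rw [finsum_mem_eq_of_bijOn (g := fun x => t x e * a x e) _ (b1 e)
      fun z hz => by rw [show z.1.2 = e from hz]]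
    refine (finsum_mem_inter_support_eq' _ _ Set.univ fun x hx => ?_).trans (finsum_mem_univ _)
      |>.symm
    exact ⟨fun _ => trivial, fun _ => left_ne_zero_of_mul hx⟩
  · refine congrArg _ (funext fun x => ?_)
    rw [finsum_mem_eq_of_bijOn (g := fun e => t x e * a x e) _ (b2 x)
      fun z hz => by rw [show z.1.1 = x from hz]]
    refine (finsum_mem_inter_support_eq' _ _ Set.univ fun e he => ?_).trans (finsum_mem_univ _)
    exact ⟨fun _ => trivial, fun _ => left_ne_zero_of_mul he⟩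

/-- The trace property. -/
theorem dimTr_comm (hM : MatSpec) (hF : FibSpec) {o : V} (hT : TU Γ o) {s : E → Set V}
    {sX : X → Set V} (hs : GS Γ s) (hX : GS Γ sX) {t : X → E → ℝ} (h : Mat t) (hi : Inv Γ t)
    {A : DimH X →L[ℝ] DimH E} (hA : DimInv Γ A) :
    dimTr hs o (A ∘L dimOp hM h) = dimTr hX o (dimOp hM h ∘L A) := by
  refine Eq.trans ?_ (dim_mtp hF hT hs hX h hi (fun x e => A (dimD x) e) fun g x e => hA.diag g x e)
  refine congrArg (wsum s o) (funext fun e => ?_)
  have e1 : dimOp hM h (dimD e) = ∑ x ∈ (h.dimSwap.dimRow e).toFinset, t x e • dimD x := by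
    ext y
    rw [dimOp_D, lp.coeFn_sum, Finset.sum_apply, Finset.sum_eq_single y]
    · exact ((congrArg (t y e * ·) (dimD_self y)).trans (mul_one _)).symm
    · exact fun x _ hx => (congrArg (t x e * ·) (dimD_ne hx.symm)).trans (mul_zero _)
    · intro hy
      have h0 : t y e = 0 := by simpa using hy
      rw [h0, zero_smul]
      rfl
  rw [ContinuousLinearMap.comp_apply, e1, map_sum, lp.coeFn_sum, Finset.sum_apply]
  refine Eq.trans ?_ (dim_app h.dimSwap (fun x => A (dimD x) e) e).symm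
  exact Finset.sum_congr rfl fun x _ => by rw [map_smul]; rfl

theorem dim_const {H H' : Type} [NormedAddCommGroup H] [NormedSpace ℝ H] [NormedAddCommGroup H']
    [NormedSpace ℝ H'] (T : H →L[ℝ] H') (T' : H' →L[ℝ] H) :
    ∃ c : ℝ, 0 < c ∧ c * ‖T‖ ^ 2 ≤ 2 ∧ c * ‖T'‖ ^ 2 ≤ 2 := by
  have h0 : 0 < ‖T‖ ^ 2 + ‖T'‖ ^ 2 + 1 := by positivity
  refine ⟨(‖T‖ ^ 2 + ‖T'‖ ^ 2 + 1)⁻¹, inv_pos.2 h0, ?_, ?_⟩
  · rw [inv_mul_le_iff₀ h0]
    nlinarith [sq_nonneg ‖T‖, sq_nonneg ‖T'‖]
  · rw [inv_mul_le_iff₀ h0]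
    nlinarith [sq_nonneg ‖T‖, sq_nonneg ‖T'‖]

/-- The projection onto the kernel of an invariant matrix is invariant. -/
theorem dim_proj_inv (hM : MatSpec) {t : X → E → ℝ} (h : Mat t) (hi : Inv Γ t)
    (K : Submodule ℝ (DimH E)) [K.HasOrthogonalProjection] (hK : ∀ f, f ∈ K ↔ dimOp hM h f = 0) :
    DimInv Γ K.starProjection := fun g f f' e y => by
  obtain ⟨c, hc, -, hc2⟩ := dim_const (dimOp hM h) (dimOp hM h.dimSwap)
  have h1 := dim_erg _ _ (dimOp_adj hM h) hc hc2 K hK
  refine tendsto_nhds_unique (dim_tendsto (h1 f') (g • y)) ((dim_tendsto (h1 f) y).congr fun N => ?_)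
  have one : DimInv Γ (1 : DimH E →L[ℝ] DimH E) := fun g f f' h => h
  exact (((DimInv.sum (fun n => (one.sub (((dimOp_inv hM h.dimSwap hi.dimSwap).comp
    (dimOp_inv hM h hi)).smul c)).pow n) N).smul _) g f f' e y).symm

/-- The kernel and the cokernel have the same codimension. -/
theorem dim_add (hM : MatSpec) (hF : FibSpec) {o : V} (hT : TU Γ o) {s : E → Set V}
    {sX : X → Set V} (hs : GS Γ s) (hX : GS Γ sX) {t : X → E → ℝ} (h : Mat t) (hi : Inv Γ t)
    (K : Submodule ℝ (DimH E)) [K.HasOrthogonalProjection] (hK : ∀ f, f ∈ K ↔ dimOp hM h f = 0)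
    (K' : Submodule ℝ (DimH X)) [K'.HasOrthogonalProjection]
    (hK' : ∀ f, f ∈ K' ↔ dimOp hM h.dimSwap f = 0) :
    dimTr hs o K.starProjection - wsum s o 1 = dimTr hX o K'.starProjection - wsum sX o 1 := by
  have iT := dimOp_inv hM h hi
  have iT' := dimOp_inv hM h.dimSwap hi.dimSwap
  have tr := fun A => dimTr_comm hM hF hT hs hX h hi (A := A)
  have adj := dimOp_adj hM h
  set T := dimOp hM h
  set T' := dimOp hM h.dimSwap
  obtain ⟨c, hc, hc1, hc2⟩ := dim_const T T'
  have adj' : ∀ f g, ⟪T' f, g⟫ = ⟪f, T g⟫ := fun f g => by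
    rw [real_inner_comm, ← adj, real_inner_comm]
  have h1 := dimTr_tendsto hs o (dim_erg T T' adj hc hc2 K hK)
  have h2 := dimTr_tendsto hX o (dim_erg T' T adj' hc hc1 K' hK')
  set S : DimH E →L[ℝ] DimH E := 1 - c • T' ∘L T with hS
  set S' : DimH X →L[ℝ] DimH X := 1 - c • T ∘L T' with hS'
  have one : DimInv Γ (1 : DimH E →L[ℝ] DimH E) := fun g f f' h => h
  have iS : DimInv Γ S := one.sub ((iT'.comp iT).smul c)
  have hcom : ∀ n f, T ((S ^ n) f) = (S' ^ n) (T f) := fun n => by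
    induction n with
    | zero => exact fun f => rfl
    | succ n ih =>
      intro f
      rw [pow_succ, pow_succ, mul_apply_eq_comp, mul_apply_eq_comp, ih]
      refine congrArg _ ?_
      change T (f - c • T' (T f)) = T f - c • T (T' (T f))
      rw [map_sub, map_smul]
  have key : ∀ n, dimTr hs o (S ^ n) - wsum s o 1 = dimTr hX o (S' ^ n) - wsum sX o 1 := fun n => by
    induction n with
    | zero => rw [pow_zero, pow_zero, dimTr_one, dimTr_one, sub_self, sub_self]
    | succ n ih =>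
      have e1 : S ^ (n + 1) = S ^ n - c • ((S ^ n) ∘L T') ∘L T := by
        refine ContinuousLinearMap.ext fun f => ?_
        rw [pow_succ]
        change (S ^ n) (f - c • T' (T f)) = (S ^ n) f - c • (S ^ n) (T' (T f))
        rw [map_sub, map_smul]
      have e2 : S' ^ (n + 1) = S' ^ n - c • T ∘L ((S ^ n) ∘L T') := by
        refine ContinuousLinearMap.ext fun f => ?_
        rw [pow_succ]
        change (S' ^ n) (f - c • T (T' f)) = (S' ^ n) f - c • T ((S ^ n) (T' f))
        rw [map_sub, map_smul, hcom]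
      rw [e1, e2, map_sub, map_sub, map_smul, map_smul, tr _ ((iS.pow n).comp iT')]
      linarith
  refine tendsto_nhds_unique (h1.sub_const _) ((h2.sub_const _).congr' ?_)
  filter_upwards [eventually_gt_atTop 0] with N hN
  have hN' : (N : ℝ) ≠ 0 := Nat.cast_ne_zero.2 hN.ne'
  have e : ∑ n ∈ Finset.range N, (dimTr hs o (S ^ n) - wsum s o 1) =
      ∑ n ∈ Finset.range N, (dimTr hX o (S' ^ n) - wsum sX o 1) :=
    Finset.sum_congr rfl fun n _ => key n
  simp only [Finset.sum_sub_distrib, Finset.sum_const, Finset.card_range, nsmul_eq_mul] at e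
  rw [map_smul, map_smul, map_sum, map_sum, smul_eq_mul, smul_eq_mul]
  field_simp
  linarith

end

/-- The closed span of the square summable members of a set of functions. -/
noncomputable def dimK (A : Set (E → ℝ)) : Submodule ℝ (DimH E) :=
  (Submodule.span ℝ {f : DimH E | ⇑f ∈ A}).topologicalClosure

instance dimK_complete (A : Set (E → ℝ)) : CompleteSpace (dimK A) :=
  Submodule.topologicalClosure.completeSpace _

theorem dim_ker (hM : MatSpec) {t : X → E → ℝ} (h : Mat t) (f : DimH E) :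
    ⇑f ∈ Ker t ↔ dimOp hM h f = 0 :=
  ⟨fun hf => lp.ext (funext hf.2), fun hf => ⟨dim_l2 f, fun y =>
    (congrFun (dimOp_apply hM h f) y).symm.trans (by rw [hf]; rfl)⟩⟩

theorem dimK_ker (hM : MatSpec) {t : X → E → ℝ} (h : Mat t) (f : DimH E) :
    f ∈ dimK (Ker t) ↔ dimOp hM h f = 0 := by
  have e : {f : DimH E | ⇑f ∈ Ker t} = ((dimOp hM h).ker : Submodule ℝ (DimH E)) :=
    Set.ext fun f => dim_ker hM h f
  rw [dimK, e, Submodule.span_eq, (dimOp hM h).isClosed_ker.submodule_topologicalClosure_eq]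
  rfl

theorem dim_diag (K : Submodule ℝ (DimH E)) [K.HasOrthogonalProjection] (e : E) :
    K.starProjection (dimD e) e = ‖K.starProjection (dimD e)‖ ^ 2 := by
  rw [← dimD_inner, ← real_inner_self_eq_norm_sq, K.inner_starProjection_left_eq_right,
    K.starProjection_eq_self_iff.2 (K.starProjection_apply_mem _)]

theorem dim_diag_le {K K' : Submodule ℝ (DimH E)} [K.HasOrthogonalProjection]
    [K'.HasOrthogonalProjection] (hle : K ≤ K') (e : E) :
    K'.starProjection (dimD e) e = K.starProjection (dimD e) e +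
      ‖K'.starProjection (dimD e) - K.starProjection (dimD e)‖ ^ 2 := by
  have e1 : K.starProjection (K'.starProjection (dimD e)) = K.starProjection (dimD e) :=
    DFunLike.congr_fun (Submodule.starProjection_comp_starProjection_of_le hle) _
  rw [dim_diag, dim_diag, Submodule.norm_sq_eq_add_norm_sq_starProjection _ K,
    Submodule.starProjection_orthogonal_val, e1]

theorem dimSpec : MatSpec → FibSpec → DimSpec := by
  intro hM hF V Γ E _ _ _ o s hT hs
  have pos : ∀ e, (0 : ℝ) < (s e).ncard := fun e =>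
    Nat.cast_pos.2 ((Set.ncard_pos (hs.fin e)).2 (hs.ne e))
  refine ⟨fun A => dimTr hs o (dimK A).starProjection, fun A => ?_, ?_, ?_⟩
  · simp only [dimTr_apply, dim_wsum hs]
    exact Finset.sum_nonneg fun e _ => div_nonneg (by rw [dim_diag]; positivity) (pos e).le
  · intro X X' _ _ t t' h h' hi hi' hsub
    have hle : dimK (Ker t) ≤ dimK (Ker t') :=
      Submodule.topologicalClosure_mono (Submodule.span_mono fun f hf => hsub hf)
    have hd := dim_diag_le hle
    have iP := dim_proj_inv hM h hi _ (dimK_ker hM h)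
    have iP' := dim_proj_inv hM h' hi' _ (dimK_ker hM h')
    have m := dimK_ker hM h
    have m' := dimK_ker hM h'
    set P := (dimK (Ker t)).starProjection with hP
    set P' := (dimK (Ker t')).starProjection with hP'
    have h1 : ∀ e ∈ (hs.lf o).toFinset,
        P (dimD e) e / (s e).ncard ≤ P' (dimD e) e / (s e).ncard := fun e _ =>
      div_le_div_of_nonneg_right (by rw [hd]; exact le_add_of_nonneg_right (sq_nonneg _)) (pos e).le
    simp only [dimTr_apply, dim_wsum hs]
    refine ⟨Finset.sum_le_sum h1, fun hge c hc => ?_⟩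
    have h2 := (Finset.sum_eq_sum_iff_of_le h1).1 (le_antisymm (Finset.sum_le_sum h1) hge)
    have h3 : ∀ e, P' (dimD e) = P (dimD e) := fun e => by
      obtain ⟨v, hv⟩ := hs.ne e
      obtain ⟨g, hg⟩ := hT.1 v o
      have h4 := h2 (g • e) ((hs.lf o).mem_toFinset.2 (hg ▸ hs.eqv g e v hv))
      rw [div_left_inj' (pos _).ne', iP.diag, iP'.diag, hd, left_eq_add] at h4
      exact sub_eq_zero.1 (norm_eq_zero.1 (pow_eq_zero_iff two_ne_zero |>.1 h4))
    let f : DimH E := ⟨c, (dim_mem c).2 hc.1⟩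
    have hf : f ∈ dimK (Ker t') := (m' f).2 ((dim_ker hM h' f).1 hc)
    have h5 : P f = f := by
      ext e
      rw [← dimD_inner, ← dimD_inner, hP, ← Submodule.inner_starProjection_left_eq_right, ← hP,
        ← h3, hP', Submodule.inner_starProjection_left_eq_right,
        Submodule.starProjection_eq_self_iff.2 hf]
    exact (dim_ker hM h f).2 ((m f).1 (Submodule.starProjection_eq_self_iff.1 h5))
  · intro X R _ _ sX sR t D hX hR h hD hi hiD h0 hex
    have a1 := dim_add hM hF hT hs hX h hi _ (dimK_ker hM h) _ (dimK_ker hM h.dimSwap)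
    have a2 := dim_add hM hF hT hR hX hD hiD ⊥ (fun f => ⟨fun hf => by
      rw [(Submodule.mem_bot ℝ).1 hf, map_zero], fun hf =>
        (Submodule.mem_bot ℝ).2 (lp.ext (h0 _ ((dim_ker hM hD f).2 hf)))⟩)
      (dimK (Ker fun e x => t x e))ᗮ fun f => by
        rw [Submodule.mem_orthogonal]
        refine ⟨fun hf => ?_, fun hf u hu => ?_⟩
        · refine (inner_self_eq_zero (𝕜 := ℝ)).1 ?_
          rw [← dimOp_adj hM hD]
          refine hf _ ((dimK_ker hM h.dimSwap _).2 ((dim_ker hM h.dimSwap _).1 ?_))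
          exact (hex _).2 ⟨_, dim_l2 _, rfl⟩
        · obtain ⟨b, hb, e⟩ := (hex _).1 ((dim_ker hM h.dimSwap u).2
            ((dimK_ker hM h.dimSwap u).1 hu))
          have e' : u = dimOp hM hD ⟨b, (dim_mem b).2 hb⟩ := lp.ext e
          rw [e', dimOp_adj, hf, inner_zero_right]
    rw [Submodule.starProjection_bot, map_zero, Submodule.starProjection_orthogonal', map_sub,
      dimTr_one] at a2
    change dimTr hs o (dimK (Ker t)).starProjection = _
    linarith

end Pool.Agent.MP_77f003_co.H49
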