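import Pool.Agent.MP_77f003_co.H49.USpec

/-!
Bounded matrices act on square summable functions, mass transport along equivariant maps, and
unimodularity from equal orbit counts.
-/

namespace Pool.Agent.MP_77f003_co.H49

open SimpleGraph

theorem matSpec : MatSpec := by
  classical
  intro X Y t c ⟨b, h1, h2, h3⟩ hc
  have fr : ∀ y, {x | t y x ≠ 0}.Finite := fun y => Set.finite_of_encard_le_coe (h2 y)
  have row : ∀ y, app t c y ^ 2 ≤ b ^ 3 * ∑ x ∈ (fr y).toFinset, c x ^ 2 := fun y => by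
    have e : app t c y = ∑ x ∈ (fr y).toFinset, t y x * c x :=
      finsum_eq_sum_of_support_subset_of_finite (fun x => t y x * c x)
        (fun _ hx => left_ne_zero_of_mul hx) _
    have hc1 : ((fr y).toFinset.card : ℝ) ≤ b := by
      have := h2 y
      rw [(fr y).encard_eq_coe_toFinset_card] at this
      exact_mod_cast this
    have hs : ∑ x ∈ (fr y).toFinset, (t y x * c x) ^ 2 ≤
        b ^ 2 * ∑ x ∈ (fr y).toFinset, c x ^ 2 := by
      rw [Finset.mul_sum]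
      refine Finset.sum_le_sum fun x _ => ?_
      rw [mul_pow, ← sq_abs (t y x)]
      have := h1 y x
      gcongr
    calc app t c y ^ 2 ≤ (fr y).toFinset.card * ∑ x ∈ (fr y).toFinset, (t y x * c x) ^ 2 := by
          rw [e]
          exact sq_sum_le_card_mul_sum_sq
      _ ≤ b * (b ^ 2 * ∑ x ∈ (fr y).toFinset, c x ^ 2) := by gcongr
      _ = _ := by ring
  refine summable_of_sum_le (c := b ^ 3 * (b * ∑' x, c x ^ 2)) (fun y => sq_nonneg _) fun F => ?_
  refine (Finset.sum_le_sum fun y _ => row y).trans ?_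
  rw [← Finset.mul_sum]
  gcongr
  let U := F.biUnion fun y => (fr y).toFinset
  calc ∑ y ∈ F, ∑ x ∈ (fr y).toFinset, c x ^ 2
      = ∑ y ∈ F, ∑ x ∈ U, if t y x ≠ 0 then c x ^ 2 else 0 := by
        refine Finset.sum_congr rfl fun y hy => ?_
        rw [← Finset.sum_filter]
        refine Finset.sum_congr ?_ fun _ _ => rfl
        ext x
        simp only [Set.Finite.mem_toFinset, Finset.mem_filter, U, Finset.mem_biUnion]
        exact ⟨fun h => ⟨⟨y, hy, h⟩, h⟩, fun h => h.2⟩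
    _ ≤ ∑ x ∈ U, b * c x ^ 2 := by
        rw [Finset.sum_comm]
        refine Finset.sum_le_sum fun x _ => ?_
        rw [← Finset.sum_filter, Finset.sum_const, nsmul_eq_mul]
        have : ((F.filter fun y => t y x ≠ 0).card : ℕ∞) ≤ b := by
          rw [← Set.encard_coe_eq_coe_finsetCard]
          refine (Set.encard_le_encard fun y hy => ?_).trans (h3 x)
          exact (Finset.mem_filter.1 (Finset.mem_coe.1 hy)).2
        have h4 : ((F.filter fun y => t y x ≠ 0).card : ℝ) ≤ b := by exact_mod_cast this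
        gcongr
    _ ≤ b * ∑' x, c x ^ 2 := by
        rw [← Finset.mul_sum]
        gcongr
        exact hc.sum_le_tsum _ fun _ _ => sq_nonneg _

section

variable {V Γ X : Type} [Group Γ] [MulAction Γ V] [MulAction Γ X]

theorem GS.fib_mem {s : X → Set V} (h : GS Γ s) (g : Γ) (x : X) (v : V) :
    g • v ∈ s (g • x) ↔ v ∈ s x :=
  ⟨fun hv => by simpa using h.eqv g⁻¹ _ _ hv, h.eqv g x v⟩

theorem GS.fib_ncard {s : X → Set V} (h : GS Γ s) (g : Γ) (x : X) :
    (s (g • x)).ncard = (s x).ncard := by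
  rw [← Set.ncard_image_of_injective (s x) (MulAction.injective g)]
  refine congrArg _ (Set.ext fun v => ⟨fun hv => ⟨g⁻¹ • v, ?_, smul_inv_smul g v⟩, ?_⟩)
  · rwa [← h.fib_mem g, smul_inv_smul]
  · rintro ⟨w, hw, rfl⟩
    exact h.eqv g x w hw

/-- The mass sent from `a` to `b`. -/
noncomputable def fibM (s s' : X → Set V) (φ : X → ℝ) (a b : V) : ℝ :=
  ∑ᶠ x ∈ {x | a ∈ s x ∧ b ∈ s' x}, φ x / ((s x).ncard * (s' x).ncard)

omit [Group Γ] [MulAction Γ V] [MulAction Γ X] in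
theorem fibM_symm (s s' : X → Set V) (φ : X → ℝ) (a b : V) :
    fibM s s' φ a b = fibM s' s φ b a := by
  simp only [fibM, and_comm, mul_comm]

theorem fibM_inv {s s' : X → Set V} (h : GS Γ s) (h' : GS Γ s') {φ : X → ℝ}
    (hφ : ∀ (g : Γ) x, φ (g • x) = φ x) (g : Γ) (a b : V) :
    fibM s s' φ (g • a) (g • b) = fibM s s' φ a b := by
  have bij : Set.BijOn (fun x => g • x) {x | a ∈ s x ∧ b ∈ s' x}
      {x | g • a ∈ s x ∧ g • b ∈ s' x} := by
    refine ⟨fun x hx => ⟨h.eqv g x _ hx.1, h'.eqv g x _ hx.2⟩, (MulAction.injective g).injOn,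
      fun x hx => ⟨g⁻¹ • x, ⟨?_, ?_⟩, smul_inv_smul g x⟩⟩
    · rw [← h.fib_mem g, smul_inv_smul]
      exact hx.1
    · rw [← h'.fib_mem g, smul_inv_smul]
      exact hx.2
  refine (finsum_mem_eq_of_bijOn _ bij fun x _ => ?_).symm
  rw [hφ, h.fib_ncard, h'.fib_ncard]

theorem fibM_sum {s s' : X → Set V} (h : GS Γ s) (h' : GS Γ s') (φ : X → ℝ) (a : V) :
    ∑ᶠ b, fibM s s' φ a b = wsum s a φ := by
  classical
  have e : ∀ b, fibM s s' φ a b = ∑ x ∈ (h.lf a).toFinset,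
      (s' x).indicator (fun _ => φ x / ((s x).ncard * (s' x).ncard)) b := fun b => by
    simp only [Set.indicator_apply]
    rw [← Finset.sum_filter, fibM, ← finsum_mem_coe_finset]
    refine finsum_mem_congr ?_ fun _ _ => rfl
    ext x
    simp
  simp only [e]
  rw [finsum_sum_comm _ _ fun x _ => (h'.fin x).subset Set.support_indicator_subset, wsum,
    finsum_mem_eq_finite_toFinset_sum _ (h.lf a)]
  refine Finset.sum_congr rfl fun x _ => ?_
  have p : ((s' x).ncard : ℝ) ≠ 0 :=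
    Nat.cast_ne_zero.2 ((Set.ncard_pos (h'.fin x)).2 (h'.ne x)).ne'
  rw [← finsum_mem_def, finsum_mem_eq_finite_toFinset_sum _ (h'.fin x), Finset.sum_const,
    nsmul_eq_mul, ← Set.ncard_eq_toFinset_card _ (h'.fin x), mul_comm ((s x).ncard : ℝ),
    ← mul_div_assoc, mul_div_mul_left _ _ p]

/-- The mass received does not depend on the supports. -/
theorem fib_indep {o : V} (hT : TU Γ o) {s s' : X → Set V} (h : GS Γ s) (h' : GS Γ s') {φ : X → ℝ}
    (hφ : ∀ (g : Γ) x, φ (g • x) = φ x) : wsum s o φ = wsum s' o φ := by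
  obtain ⟨σ, hσ⟩ := hT.2
  rw [← fibM_sum h h', ← fibM_sum h' h, ← finsum_comp_equiv σ (f := fun b => fibM s' s φ o b)]
  refine finsum_congr fun b => ?_
  obtain ⟨g, h1, h2⟩ := hσ b
  rw [← fibM_inv h h' hφ g, h1, h2, fibM_symm]

end

theorem fibSpec : FibSpec := by
  intro V Γ X Y _ _ _ _ o s s' π φ hT hs hs' hπ hf hφ
  have h2 : GS Γ fun x => s' (π x) :=
    { fin := fun x => hs'.fin _
      ne := fun x => hs'.ne _
      eqv := fun g x v hv => by
        rw [hπ]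
        exact hs'.eqv g _ v hv
      lf := fun v => ((hs'.lf v).biUnion fun y _ => hf y).subset fun x hx =>
        Set.mem_biUnion (x := π x) hx rfl }
  have e : {x | o ∈ s' (π x)} = ⋃ y ∈ {y | o ∈ s' y}, {x | π x = y} := by
    ext x
    simp
  rw [fib_indep hT hs h2 hφ, wsum, wsum, e, finsum_mem_biUnion _ (hs'.lf o) fun y _ => hf y]
  · refine finsum_mem_congr rfl fun y _ => ?_
    rw [finsum_mem_eq_finite_toFinset_sum _ (hf y), finsum_mem_eq_finite_toFinset_sum _ (hf y),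
      Finset.sum_div]
    exact Finset.sum_congr rfl fun x hx => by rw [show π x = y by simpa using hx]
  · exact fun y _ y' _ hy => Set.disjoint_left.2 fun x hx hx' => hy (hx.symm.trans hx')

theorem umSpec : UMSpec := by
  intro V G _ _ Γ htr hcard o
  let R : V → Set V := fun y => {z | ∃ φ ∈ Γ, φ o = o ∧ φ y = z}
  let S : V → Set V := fun y => {z | ∃ φ ∈ Γ, φ y = o ∧ φ o = z}
  have self : ∀ y, y ∈ R y := fun y => ⟨1, Γ.one_mem, rfl, rfl⟩
  have fin : ∀ y, (R y).Finite := fun y => (finite_ball (G := G) o (G.dist o y)).subset <| by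
    rintro z ⟨φ, -, h1, rfl⟩
    have := dist_iso φ o y
    rw [h1] at this
    exact this.le
  have inv : ∀ (φ : G ≃g G) x y, φ x = y → φ⁻¹ y = x := fun φ x y h => by
    rw [← h]
    exact φ.symm_apply_apply x
  have SR : ∀ y z, z ∈ S y → S y = R z := by
    rintro y z ⟨φ, hφ, h1, h2⟩
    ext w
    constructor
    · rintro ⟨ψ, hψ, h3, h4⟩
      refine ⟨ψ * φ⁻¹, Γ.mul_mem hψ (Γ.inv_mem hφ), ?_, ?_⟩
      · rw [RelIso.mul_apply, inv φ _ _ h1, h3]
      · rw [RelIso.mul_apply, inv φ _ _ h2, h4]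
    · rintro ⟨ψ, hψ, h3, h4⟩
      refine ⟨ψ * φ, Γ.mul_mem hψ hφ, ?_, ?_⟩
      · rw [RelIso.mul_apply, h1, h3]
      · rw [RelIso.mul_apply, h2, h4]
  have Sne : ∀ y, ∃ z, z ∈ S y := fun y => by
    obtain ⟨φ, hφ, h⟩ := htr y o
    exact ⟨φ o, φ, hφ, h, rfl⟩
  have Ssym : ∀ y z, z ∈ S y → y ∈ S z := by
    rintro y z ⟨φ, hφ, h1, h2⟩
    exact ⟨φ⁻¹, Γ.inv_mem hφ, inv φ _ _ h2, inv φ _ _ h1⟩
  have RR : ∀ y z, R z = R y ↔ z ∈ R y := fun y z => ⟨fun h => h ▸ self z, fun h => by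
    obtain ⟨w, hw⟩ := Sne y
    have h1 := SR w y (Ssym _ _ hw)
    rw [← h1, SR w z (h1 ▸ h)]⟩
  have SS : ∀ y z, S z = R y ↔ z ∈ S y := fun y z =>
    ⟨fun h => Ssym _ _ (h ▸ self y), fun h => SR _ _ (Ssym _ _ h)⟩
  have card : ∀ y, (S y).ncard = (R y).ncard := fun y => by
    obtain ⟨φ, hφ, h⟩ := htr y o
    refine Eq.trans ?_ (hcard o y).symm
    rw [← Set.ncard_image_of_injective {z | ∃ φ ∈ Γ, φ y = y ∧ φ o = z} φ.injective]
    refine congrArg _ (Set.ext fun z => ⟨?_, ?_⟩)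
    · rintro ⟨ψ, hψ, h3, h4⟩
      refine ⟨φ⁻¹ z, ⟨φ⁻¹ * ψ, Γ.mul_mem (Γ.inv_mem hφ) hψ, ?_, ?_⟩, φ.apply_symm_apply z⟩
      · rw [RelIso.mul_apply, h3, inv φ _ _ h]
      · rw [RelIso.mul_apply, h4]
    · rintro ⟨_, ⟨ψ, hψ, h3, rfl⟩, rfl⟩
      exact ⟨φ * ψ, Γ.mul_mem hφ hψ, by rw [RelIso.mul_apply, h3, h], rfl⟩
  have ex : ∀ c, Nonempty ({y // S y = c} ≃ {z // R z = c}) := fun c => by
    by_cases hc : ∃ y, R y = c
    · obtain ⟨y, rfl⟩ := hc
      obtain ⟨w, hw⟩ := Sne y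
      have : Finite (S y) := (SR y w hw ▸ fin w : (S y).Finite)
      have : Finite (R y) := fin y
      obtain ⟨e⟩ := Finite.card_eq.1 (card y : Nat.card (S y) = Nat.card (R y))
      exact ⟨((Equiv.subtypeEquivRight (SS y)).trans e).trans (Equiv.subtypeEquivRight (RR y)).symm⟩
    · have : IsEmpty {z // R z = c} := ⟨fun z => hc ⟨z.1, z.2⟩⟩
      have : IsEmpty {y // S y = c} := ⟨fun y => by
        obtain ⟨w, hw⟩ := Sne y.1
        exact hc ⟨w, (SR _ _ hw).symm.trans y.2⟩⟩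
      exact ⟨Equiv.equivOfIsEmpty _ _⟩
  refine ⟨Equiv.ofFiberEquiv fun c => (ex c).some, fun y => ?_⟩
  have h1 := Equiv.ofFiberEquiv_map (fun c => (ex c).some) y
  obtain ⟨φ, -, h2, h3⟩ : Equiv.ofFiberEquiv (fun c => (ex c).some) y ∈ S y := h1 ▸ self _
  exact ⟨φ, h3, h2⟩

end Pool.Agent.MP_77f003_co.H49
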